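import Mathlib
import Pool.Agent.Q149.CovSpDefs
import Pool.Agent.Q149.CovSp5

/-!
# MP_bcdb6f, Q1: the set of coverable spacings of the square lattice is not an interval

`Q149.CovSp.Coverable d` (file `Pool/Agent/Q149/CovSpDefs.lean`) says that all points of
`d ℤ²` can be covered by closed unit disks with pairwise disjoint interiors.
-/

namespace Pool.Agent.Results.MP_bcdb6f_co.NotInterval

open Q149.CovSp

/-- The set `C` of coverable spacings is not an interval: there are `0 < d₁ < d₂ < d₃` with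
`d₁, d₃ ∈ C` and `d₂ ∉ C`.  More precisely, `1/√5 ∈ C`, `[2/3, 1/√2] ⊆ C`, but no `d` with
`2/√17 < d ≤ 0.486` is in `C` (and `1/√5 < 2/√17 < 0.486 < 2/3`). -/
theorem result :
    (∃ d₁ d₂ d₃ : ℝ, 0 < d₁ ∧ d₁ < d₂ ∧ d₂ < d₃ ∧ Coverable d₁ ∧ ¬ Coverable d₂ ∧ Coverable d₃) ∧
    ¬ {d : ℝ | 0 < d ∧ Coverable d}.OrdConnected ∧
    Coverable (1 / √5) ∧
    (∀ d : ℝ, 2 / √17 < d → d ≤ 486 / 1000 → ¬ Coverable d) ∧
    (∀ d : ℝ, 2 / 3 ≤ d → d ≤ 1 / √2 → Coverable d) := by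
  have h17 : (2 / √17 : ℝ) ^ 2 = 4 / 17 := by
    rw [div_pow, Real.sq_sqrt (by norm_num)]; norm_num
  have h5 : (1 / √5 : ℝ) ^ 2 = 1 / 5 := by
    rw [div_pow, Real.sq_sqrt (by norm_num)]; norm_num
  have h2 : (1 / √2 : ℝ) ^ 2 = 1 / 2 := by
    rw [div_pow, Real.sq_sqrt (by norm_num)]; norm_num
  have p17 : (0 : ℝ) < 2 / √17 := by positivity
  have p5 : (0 : ℝ) < 1 / √5 := by positivity
  have p2 : (0 : ℝ) < 1 / √2 := by positivity
  have hA : Coverable (1 / √5) := coverable_inv_sqrt_five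
  have hB : ∀ d : ℝ, 2 / √17 < d → d ≤ 486 / 1000 → ¬ Coverable d := by
    intro d h1 h3
    have hd : 0 < d := p17.trans h1
    apply not_coverable d hd
    · rw [← h17]
      nlinarith
    · nlinarith
  have hC : ∀ d : ℝ, 2 / 3 ≤ d → d ≤ 1 / √2 → Coverable d := by
    intro d h1 h3
    apply coverable_blocks d
    · nlinarith
    · rw [← h2]
      nlinarith
  have hlt : 2 / √17 < (486 / 1000 : ℝ) := by
    nlinarith
  have hlt5 : 1 / √5 < (486 / 1000 : ℝ) := by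
    nlinarith
  have hN : ¬ Coverable (486 / 1000) := hB _ hlt le_rfl
  have hlt2 : (2 / 3 : ℝ) ≤ 1 / √2 := by nlinarith
  have hD : Coverable (2 / 3) := hC _ le_rfl hlt2
  refine ⟨⟨1 / √5, 486 / 1000, 2 / 3, p5, hlt5, by norm_num, hA, hN, hD⟩, ?_, hA, hB, hC⟩
  intro h
  have := h.out (x := 1 / √5) ⟨p5, hA⟩ (y := 2 / 3) ⟨by norm_num, hD⟩
    (⟨hlt5.le, by norm_num⟩ : (486 / 1000 : ℝ) ∈ Set.Icc (1 / √5) (2 / 3))
  exact hN this.2

end Pool.Agent.Results.MP_bcdb6f_co.NotInterval
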